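import Pool.Agent.Helper89.KN.Spec
import Pool.Agent.Helper89.KN.Base

/-!
MP_2af9b5_pr, parts CHER, CHU, CHD: tails of the Poisson distribution.
-/

open MeasureTheory Set Filter Topology
open scoped ENNReal

namespace KN

theorem hasSum_exp_mul (C w : ℝ) :
    HasSum (fun m : ℕ => C * (w ^ m / m.factorial)) (C * Real.exp w) := by
  rw [Real.exp_eq_exp_ℝ]
  exact (NormedSpace.expSeries_div_hasSum_exp w).mul_left C

theorem tsum_ofReal_exp {C w : ℝ} (hC : 0 ≤ C) (hw : 0 ≤ w) :
    ∑' m : ℕ, ENNReal.ofReal (C * (w ^ m / m.factorial)) = ENNReal.ofReal (C * Real.exp w) := by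
  rw [← (hasSum_exp_mul C w).tsum_eq, ENNReal.ofReal_tsum_of_nonneg]
  · intro m; positivity
  · exact (hasSum_exp_mul C w).summable

/-- the law of the number of points -/
theorem PP_card (V : Set ℂ) (hV : volume V ≠ ⊤) (P : ℕ → Prop) [DecidablePred P] :
    PP V (fun ω => P (Multiset.card ω)) = ∑' m : ℕ, if P m then
      ENNReal.ofReal (Real.exp (-(volume V).toReal) * ((volume V).toReal ^ m / m.factorial))
      else 0 := by
  unfold PP prob
  refine tsum_congr fun m => ?_
  by_cases h : P m
  · have h1 : {x : Fin m → ℂ | P (Multiset.card (conf x))} = univ := by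
      ext x; simp [h]
    rw [if_pos h, h1, Measure.pi_univ]
    simp only [Measure.restrict_apply_univ, Finset.prod_const, Finset.card_univ, Fintype.card_fin]
    have h2 : volume V ^ m = ENNReal.ofReal ((volume V).toReal ^ m) := by
      rw [ENNReal.ofReal_pow ENNReal.toReal_nonneg, ENNReal.ofReal_toReal hV]
    rw [h2, ← ENNReal.ofReal_mul (by positivity)]
    congr 1
    ring
  · have h1 : {x : Fin m → ℂ | P (Multiset.card (conf x))} = ∅ := by
      ext x; simp [h]
    rw [if_neg h, h1]
    simp

theorem emeas_card (P : ℕ → Prop) : EMeas (fun ω => P (Multiset.card ω)) := by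
  intro m
  by_cases h : P m
  · have h1 : {x : Fin m → ℂ | P (Multiset.card (conf x))} = univ := by
      ext x; simp [h]
    rw [h1]; exact MeasurableSet.univ
  · have h1 : {x : Fin m → ℂ | P (Multiset.card (conf x))} = ∅ := by
      ext x; simp [h]
    rw [h1]; exact MeasurableSet.empty

theorem measurable_cnt {m : ℕ} {W : Set ℂ} (hW : MeasurableSet W) :
    Measurable (fun x : Fin m → ℂ => cnt W (conf x)) := by
  classical
  simp only [cnt_conf_eq_sum]
  refine Finset.measurable_sum _ fun i _ => ?_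
  exact Measurable.ite (measurable_pi_apply i hW) measurable_const measurable_const

theorem emeas_cnt {W : Set ℂ} (hW : MeasurableSet W) (P : ℕ → Prop) :
    EMeas (fun ω => P (cnt W ω)) := by
  intro m
  exact measurable_cnt hW (MeasurableSet.of_discrete (s := {j | P j}))

/-- upper tail for the number of points of the whole region -/
theorem PP_card_ge {V : Set ℂ} (hV : volume V ≠ ⊤) {a z : ℝ} {k : ℕ} (hz : 1 ≤ z)
    (ha : volume V ≤ ENNReal.ofReal a) (ha0 : 0 ≤ a) :
    PP V (fun ω => k ≤ Multiset.card ω) ≤ ENNReal.ofReal (Real.exp (a * (z - 1)) / z ^ k) := by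
  classical
  have hz0 : 0 < z := by linarith
  set v := (volume V).toReal with hv
  have hv0 : 0 ≤ v := ENNReal.toReal_nonneg
  have hva : v ≤ a := by
    rw [hv]; exact ENNReal.toReal_le_of_le_ofReal ha0 ha
  rw [PP_card V hV (fun m => k ≤ m), ← hv]
  calc ∑' m : ℕ, (if k ≤ m then ENNReal.ofReal (Real.exp (-v) * (v ^ m / m.factorial)) else 0)
      ≤ ∑' m : ℕ, ENNReal.ofReal ((Real.exp (-v) / z ^ k) * ((v * z) ^ m / m.factorial)) := by
        refine ENNReal.tsum_le_tsum fun m => ?_
        split_ifs with h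
        · apply ENNReal.ofReal_le_ofReal
          have h1 : (1 : ℝ) ≤ z ^ m / z ^ k := by
            rw [one_le_div (by positivity)]
            exact pow_le_pow_right₀ hz h
          calc Real.exp (-v) * (v ^ m / m.factorial)
              = (Real.exp (-v) * (v ^ m / m.factorial)) * 1 := (mul_one _).symm
            _ ≤ (Real.exp (-v) * (v ^ m / m.factorial)) * (z ^ m / z ^ k) := by
                gcongr
            _ = (Real.exp (-v) / z ^ k) * ((v * z) ^ m / m.factorial) := by
                rw [mul_pow]; ring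
        · exact zero_le
    _ = ENNReal.ofReal ((Real.exp (-v) / z ^ k) * Real.exp (v * z)) :=
        tsum_ofReal_exp (by positivity) (by positivity)
    _ ≤ ENNReal.ofReal (Real.exp (a * (z - 1)) / z ^ k) := by
        apply ENNReal.ofReal_le_ofReal
        rw [div_mul_eq_mul_div, ← Real.exp_add]
        gcongr
        nlinarith

theorem chu_thm (hR : S_RES) : S_CHU := by
  intro S V a z k hS hV hVS hfin ha hz hVa
  have hVf : volume V ≠ ⊤ := ne_top_of_le_ne_top hfin (measure_mono hVS)
  have h1 := hR S V hS hV hVS hfin (fun ω => k ≤ Multiset.card ω) (emeas_card _)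
  have h2 : PP S (fun ω => k ≤ cnt V ω) = PP V (fun ω => k ≤ Multiset.card ω) := h1
  rw [h2]
  exact PP_card_ge hVf hz hVa ha

theorem chd_thm (hR : S_RES) : S_CHD := by
  classical
  intro S V a k hS hV hVS hfin ha hVa
  have hVf : volume V ≠ ⊤ := ne_top_of_le_ne_top hfin (measure_mono hVS)
  have h1 := hR S V hS hV hVS hfin (fun ω => Multiset.card ω ≤ k) (emeas_card (fun j => j ≤ k))
  have h2 : PP S (fun ω => cnt V ω ≤ k) = PP V (fun ω => Multiset.card ω ≤ k) := h1
  rw [h2, PP_card V hVf (fun m => m ≤ k)]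
  set v := (volume V).toReal with hv
  have hv0 : 0 ≤ v := ENNReal.toReal_nonneg
  have hva : a ≤ v := by
    rw [hv]
    exact (ENNReal.ofReal_le_iff_le_toReal hVf).1 hVa
  calc ∑' m : ℕ, (if m ≤ k then ENNReal.ofReal (Real.exp (-v) * (v ^ m / m.factorial)) else 0)
      ≤ ∑' m : ℕ, ENNReal.ofReal ((2 ^ k * Real.exp (-v)) * ((v / 2) ^ m / m.factorial)) := by
        refine ENNReal.tsum_le_tsum fun m => ?_
        split_ifs with h
        · apply ENNReal.ofReal_le_ofReal
          have h1 : (1 : ℝ) ≤ 2 ^ k / 2 ^ m := by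
            rw [one_le_div (by positivity)]
            exact pow_le_pow_right₀ (by norm_num) h
          calc Real.exp (-v) * (v ^ m / m.factorial)
              = (Real.exp (-v) * (v ^ m / m.factorial)) * 1 := (mul_one _).symm
            _ ≤ (Real.exp (-v) * (v ^ m / m.factorial)) * (2 ^ k / 2 ^ m) := by
                gcongr
            _ = (2 ^ k * Real.exp (-v)) * ((v / 2) ^ m / m.factorial) := by
                rw [div_pow]; ring
        · exact zero_le
    _ = ENNReal.ofReal ((2 ^ k * Real.exp (-v)) * Real.exp (v / 2)) :=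
        tsum_ofReal_exp (by positivity) (by positivity)
    _ ≤ ENNReal.ofReal (2 ^ k * Real.exp (-(a / 2))) := by
        apply ENNReal.ofReal_le_ofReal
        rw [mul_assoc, ← Real.exp_add]
        gcongr
        linarith

theorem cher_thm (hI : S_IND) (hR : S_RES) : S_CHER := by
  intro S U V a₁ a₂ k hS hU hV hUS hVS hUV hfin ha₁ ha₂ hUa hVa
  have hVf : volume V ≠ ⊤ := ne_top_of_le_ne_top hfin (measure_mono hVS)
  have hUf : volume U ≠ ⊤ := ne_top_of_le_ne_top hfin (measure_mono hUS)
  have hm : EMeas (fun ω => cnt U ω = 0 ∧ k ≤ cnt V ω) := by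
    intro m
    exact (emeas_cnt hU (fun j => j = 0) m).inter (emeas_cnt hV (fun j => k ≤ j) m)
  have h1 := hR S (U ∪ V) hS (hU.union hV) (union_subset hUS hVS) hfin _ hm
  have h2 : PP S (fun ω => cnt U ω = 0 ∧ k ≤ cnt V ω) =
      PP (U ∪ V) (fun ω => cnt U ω = 0 ∧ k ≤ cnt V ω) := by
    rw [← h1]
    congr 1
    funext ω
    rw [cnt_res, cnt_res, inter_eq_left.2 subset_union_left, inter_eq_left.2 subset_union_right]
  have h3 := hI U V hU hV hUV hUf hVf (fun ω => Multiset.card ω = 0) (fun ω => k ≤ Multiset.card ω)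
    (emeas_card (fun j => j = 0)) (emeas_card (fun j => k ≤ j))
  have h4 : PP (U ∪ V) (fun ω => cnt U ω = 0 ∧ k ≤ cnt V ω) =
      PP U (fun ω => Multiset.card ω = 0) * PP V (fun ω => k ≤ Multiset.card ω) := h3
  rw [h2, h4]
  have hu : a₁ ≤ (volume U).toReal := (ENNReal.ofReal_le_iff_le_toReal hUf).1 hUa
  have h5 : PP U (fun ω => Multiset.card ω = 0) ≤ ENNReal.ofReal (Real.exp (-a₁)) := by
    rw [PP_card U hUf (fun m => m = 0), tsum_eq_single 0]
    · simp only [if_true, pow_zero, Nat.factorial_zero, Nat.cast_one, div_one, mul_one]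
      apply ENNReal.ofReal_le_ofReal
      gcongr
    · intro m hm
      rw [if_neg hm]
  have hz : 1 ≤ (a₁ + a₂) / a₂ := by
    rw [one_le_div ha₂]; linarith
  have h6 := PP_card_ge (k := k) hVf hz hVa ha₂.le
  calc PP U (fun ω => Multiset.card ω = 0) * PP V (fun ω => k ≤ Multiset.card ω)
      ≤ ENNReal.ofReal (Real.exp (-a₁)) *
        ENNReal.ofReal (Real.exp (a₂ * ((a₁ + a₂) / a₂ - 1)) / ((a₁ + a₂) / a₂) ^ k) := by
        gcongr
    _ = ENNReal.ofReal ((a₂ / (a₁ + a₂)) ^ k) := by
        rw [← ENNReal.ofReal_mul (by positivity)]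
        congr 1
        have e1 : a₂ * ((a₁ + a₂) / a₂ - 1) = a₁ := by
          field_simp
          ring
        rw [e1, mul_div_assoc', ← Real.exp_add, neg_add_cancel, Real.exp_zero]
        rw [one_div, ← inv_pow, inv_div]

end KN
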